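import Pool.Agent.Work.MP_5f020a_co.Conn

namespace Pool.Agent.Results.MP_5f020a_co.Q1FalseConnected

open Pool.Agent.Work.MP_5f020a_co

/-- Q1 is false, already for connected graphs: for some connected admissible `H` and `l`, every
term `π_j(H) log l + (1 - π_j(H)) log j` with `1 ≤ j ≤ e(H) - 1` is strictly below `λ(H, l)`. -/
theorem result :
    ∃ (m : ℕ) (H : SimpleGraph (Fin m)) (l : ℕ), H.Connected ∧ Admissible H l ∧
      ∀ j : ℕ, 1 ≤ j → j ≤ H.edgeSet.ncard - 1 →
        piJ H j * Real.log l + (1 - piJ H j) * Real.log j < lam H l := by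
  refine ⟨18, HH, 2300, HH_connected, HH_admissible, fun j h1 h2 => ?_⟩
  rw [HH_ncard] at h2
  exact (formula_le j h1 h2).trans_lt lam_gt

end Pool.Agent.Results.MP_5f020a_co.Q1FalseConnected
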