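import Pool.Agent.Work.MP_5f020a_co.Conn

namespace Pool.Agent.Results.MP_5f020a_co.Q2FalseConnected

open Pool.Agent.Work.MP_5f020a_co

/-- Q2 is false, already for connected graphs: for some connected admissible `H` and `l`, the
inequalities `l ^ π_j(H) * j ^ (1 - π_j(H)) ≤ e(H) - 1` hold for all `1 ≤ j ≤ e(H) - 1`, and yet
`λ(H, l) > log (e(H) - 1)`. -/
theorem result :
    ∃ (m : ℕ) (H : SimpleGraph (Fin m)) (l : ℕ), H.Connected ∧ Admissible H l ∧
      (∀ j : ℕ, 1 ≤ j → j ≤ H.edgeSet.ncard - 1 →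
        (l : ℝ) ^ piJ H j * (j : ℝ) ^ (1 - piJ H j) ≤ (H.edgeSet.ncard : ℝ) - 1) ∧
      Real.log ((H.edgeSet.ncard : ℝ) - 1) < lam H l := by
  refine ⟨18, HH, 2300, HH_connected, HH_admissible, fun j h1 h2 => ?_, ?_⟩
  · rw [HH_ncard] at h2 ⊢
    have := rpow_le j h1 h2
    norm_num at this ⊢
    exact this
  · rw [HH_ncard]
    have := lam_gt
    norm_num at this ⊢
    exact this

end Pool.Agent.Results.MP_5f020a_co.Q2FalseConnected
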